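import Pool.Agent.W338.UR.RefA

/-! Project UR (owner helper187), part UR-REF: the refined asymptotics of the rotated means. -/

set_option autoImplicit false

namespace Pool.Agent.W338.UR

open Complex MeasureTheory Filter Topology Set
open scoped Interval
open Pool.Agent.W189.ML Pool.Agent.W189.LC Pool.Agent.W187.UR

/-- the rotated logarithm -/
noncomputable def ell (γ : ℝ) (z : ℂ) : ℂ := log (z - γ * I)

theorem ell_le {γ : ℝ} (hγ : 0 < γ) {z : ℂ} (hz : z ∈ HS 1) :
    ‖ell γ z‖ ≤ (Real.pi + γ + 2) + 1 * z.re := by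
  have hz1 : 1 ≤ z.re := hz.1
  have h9 := norm_log_le (z := z - γ * I) (by simpa using hz1)
  have e1 := Complex.norm_le_abs_re_add_abs_im (z - γ * I)
  have e2 : (z - γ * I).re = z.re := by simp
  have e3 : (z - γ * I).im = z.im - γ := by simp
  rw [e2, e3, abs_of_pos (by linarith)] at e1
  have e5 := abs_le.1 hz.2
  have e4 : |z.im - γ| ≤ Real.pi + γ := by
    rw [abs_le]; constructor <;> linarith [e5.1, e5.2]
  unfold ell
  linarith

theorem ell_diff (γ : ℝ) : DifferentiableOn ℂ (ell γ) (HS 1) := by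
  intro z hz
  have hz1 : 1 ≤ z.re := hz.1
  refine (DifferentiableAt.clog (by fun_prop) (Or.inl ?_)).differentiableWithinAt
  have : (z - γ * I).re = z.re := by simp
  rw [this]
  linarith

theorem ell_adm {γ : ℝ} (hγ : 0 < γ) : Adm 1 (ell γ) :=
  ⟨(ell_diff γ).continuousOn, Real.pi + γ + 2, 1, by positivity, by norm_num,
    fun _ hz => ell_le hγ hz⟩

theorem adm_const (a : ℝ) (c : ℂ) : Adm a (fun _ => c) :=
  ⟨continuousOn_const, ‖c‖, 0, norm_nonneg _, le_rfl, fun z _ => by linarith⟩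

theorem J_cst (a : ℝ) (c : ℂ) : J a (fun _ => c) = c := by
  unfold J
  rw [V_one]
  have h3 : ∀ x : ℝ, rho (fun _ => c) x = 0 := by
    intro x; unfold rho; simp
  simp only [h3, integral_zero, add_zero]

variable {ι : Type} {lam : ι → ℝ} {c : ι → ℝ}

/-- the difference -/
noncomputable def FF (lam c : ι → ℝ) (γ : ℝ) (m : ℤ) (r₀ : ℂ) (T : ℝ) (z : ℂ) : ℂ :=
  (ser lam c (ww γ T z) - (m * Real.log T - r₀)) - (-m : ℂ) * ell γ z

theorem right [Countable ι] (D : SData lam c (fun _ => 0)) {γ : ℝ} (hγ : 0 < γ) (m : ℤ)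
    (r₀ : ℂ) : ∃ Q : ℝ, 0 ≤ Q ∧ ∀ T : ℝ, 1 ≤ T → Adm (2 * T) (FF lam c γ m r₀ T) ∧
    J (2 * T) (FF lam c γ m r₀ T) = cmean lam c γ T - (m * Real.log T - m * J 1 (ell γ) - r₀) ∧
    ∀ z ∈ HS (2 * T), ‖FF lam c γ m r₀ T z‖ ≤ Q * z.re := by
  set S2 : ℝ := ∑' i, |c i| * Real.exp (-(2 * lam i)) with hS2
  have hS20 : 0 ≤ S2 := tsum_nonneg fun i => by positivity
  refine ⟨S2 + |(m : ℝ)| + ‖r₀‖ + |(m : ℝ)| * (Real.pi + γ + 3), by positivity, fun T hT => ?_⟩
  have hT0 : 0 < T := by linarith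
  have hb0 : 0 ≤ 2 * T := by positivity
  have hre2 : ∀ z ∈ HS (2 * T), 2 ≤ (ww γ T z).re := by
    intro z hz
    rw [ww_re, le_div_iff₀ hT0]
    exact hz.1
  have hsb : ∀ z ∈ HS (2 * T), ‖ser lam c (ww γ T z)‖ ≤ S2 := fun z hz => D.ser_le (hre2 z hz)
  have hwd : Differentiable ℂ (ww γ T) := by unfold ww; fun_prop
  have admS : Adm (2 * T) (fun z : ℂ => ser lam c (ww γ T z)) := by
    refine ⟨D.ser_cont.comp hwd.continuous.continuousOn hre2, S2, 0, hS20, le_rfl,
      fun z hz => ?_⟩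
    have := hsb z hz
    linarith
  have hb1 : 1 ≤ 2 * T := by linarith
  have admL : Adm (2 * T) (ell γ) := (ell_adm hγ).mono hb1
  have admC := adm_const (2 * T) (m * Real.log T - r₀)
  have hbd : ∀ z ∈ HS (2 * T), ‖FF lam c γ m r₀ T z‖ ≤
      (S2 + |(m : ℝ)| + ‖r₀‖ + |(m : ℝ)| * (Real.pi + γ + 3)) * z.re := by
    intro z hz
    have hz1 : 1 ≤ z.re := hb1.trans hz.1
    have hzT : T ≤ z.re := by linarith [hz.1]
    have h1 := hsb z hz
    have h2 := ell_le hγ (HS_mono hb1 hz)
    have h3 : ‖(m * Real.log T - r₀ : ℂ)‖ ≤ |(m : ℝ)| * z.re + ‖r₀‖ * z.re := by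
      refine (norm_sub_le _ _).trans (add_le_add ?_ ?_)
      · rw [norm_mul, Complex.norm_intCast, Complex.norm_real, Real.norm_eq_abs,
          abs_of_nonneg (Real.log_nonneg hT)]
        have : Real.log T ≤ T := (Real.log_le_sub_one_of_pos hT0).trans (by linarith)
        exact mul_le_mul_of_nonneg_left (this.trans hzT) (abs_nonneg _)
      · exact le_mul_of_one_le_right (norm_nonneg _) hz1
    have h4 : ‖(-m : ℂ) * ell γ z‖ ≤ |(m : ℝ)| * ((Real.pi + γ + 3) * z.re) := by
      rw [norm_mul, norm_neg, Complex.norm_intCast]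
      refine mul_le_mul_of_nonneg_left (h2.trans ?_) (abs_nonneg _)
      have : 0 ≤ Real.pi + γ + 2 := by positivity
      nlinarith
    unfold FF
    refine (norm_sub_le _ _).trans ?_
    have h5 : S2 ≤ S2 * z.re := le_mul_of_one_le_right hS20 hz1
    calc ‖ser lam c (ww γ T z) - (m * Real.log T - r₀)‖ + ‖(-m : ℂ) * ell γ z‖
        ≤ (S2 * z.re + (|(m : ℝ)| * z.re + ‖r₀‖ * z.re)) +
          |(m : ℝ)| * ((Real.pi + γ + 3) * z.re) :=
          add_le_add ((norm_sub_le _ _).trans (add_le_add (h1.trans h5) h3)) h4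
      _ = _ := by ring
  have admSC : Adm (2 * T) (fun z : ℂ => ser lam c (ww γ T z) - (m * Real.log T - r₀)) := by
    obtain ⟨A, B, hA, hB, h⟩ := admS.bound
    obtain ⟨A', B', hA', hB', h'⟩ := admC.bound
    refine ⟨admS.cont.sub admC.cont, A + A', B + B', by positivity, by positivity,
      fun z hz => ?_⟩
    have e1 := h z hz
    have e2 := h' z hz
    refine (norm_sub_le _ _).trans ?_
    linarith
  have admML : Adm (2 * T) (fun z : ℂ => (-m : ℂ) * ell γ z) := by
    obtain ⟨A, B, hA, hB, h⟩ := admL.bound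
    refine ⟨continuousOn_const.mul admL.cont, ‖(-m : ℂ)‖ * A, ‖(-m : ℂ)‖ * B, by positivity,
      by positivity, fun z hz => ?_⟩
    rw [norm_mul]
    calc ‖(-m : ℂ)‖ * ‖ell γ z‖ ≤ ‖(-m : ℂ)‖ * (A + B * z.re) :=
          mul_le_mul_of_nonneg_left (h z hz) (norm_nonneg _)
      _ = _ := by ring
  refine ⟨?_, ?_, hbd⟩
  · refine ⟨admSC.cont.sub admML.cont, 0,
      S2 + |(m : ℝ)| + ‖r₀‖ + |(m : ℝ)| * (Real.pi + γ + 3), le_rfl, ?_, fun z hz => ?_⟩
    · positivity
    · rw [zero_add]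
      exact hbd z hz
  · have E1 := (cmean_eq (γ := γ) (b := 2 * T) D hT le_rfl).1
    have e1 : J (2 * T) (FF lam c γ m r₀ T) =
        J (2 * T) (fun z : ℂ => ser lam c (ww γ T z) - (m * Real.log T - r₀)) -
        J (2 * T) (fun z : ℂ => (-m : ℂ) * ell γ z) := J_sub hb0 admSC admML
    have e2 : J (2 * T) (fun z : ℂ => ser lam c (ww γ T z) - (m * Real.log T - r₀)) =
        J (2 * T) (fun z : ℂ => ser lam c (ww γ T z)) -
        J (2 * T) (fun _ => (m * Real.log T - r₀ : ℂ)) := J_sub hb0 admS admC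
    have e3 : J 1 (ell γ) = J (2 * T) (ell γ) :=
      J_shift' zero_le_one hb1 (ell_adm hγ) (ell_diff γ)
    have e4 : J (2 * T) (fun z : ℂ => ser lam c (ww γ T z)) = cmean lam c γ T := E1
    rw [e1, e2, J_const_mul, J_cst, e4, ← e3]
    ring

theorem ref : S_REF := by
  intro ι _ lam c D γ hγ m r₀ L η B H hL2
  obtain ⟨hθ1, hθ2, hθ3, hκ0⟩ := th_facts hγ
  have hpi := Real.pi_pos
  have hγ0 : 0 < γ := by linarith
  have hη := H.hη
  obtain ⟨C1, hC1, hleft⟩ := left hγ H
  obtain ⟨Q, hQ, hright⟩ := right D hγ0 m r₀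
  set θ : ℝ := th γ with hθ
  set κ : ℝ := -Real.cos θ with hκ
  have hq : 0 < (Real.pi + γ) / η := by positivity
  refine ⟨C1 + Q * (2 / κ ^ 2) + Q, (Real.pi + γ) / η + (1 + γ) + 1, by positivity,
    by linarith, fun T hT => ?_⟩
  have hT1 : 1 ≤ T := by linarith
  have hT0 : 0 < T := by linarith
  obtain ⟨admF, hJ, hF⟩ := hright T hT1
  set b : ℝ := 2 * T with hb
  have hb0 : 0 ≤ b := by linarith
  have hexpb : Real.exp (-b) ≤ 1 / T := by
    rw [Real.exp_neg, le_div_iff₀ hT0, inv_mul_le_iff₀ (Real.exp_pos _), mul_one]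
    have := Real.add_one_le_exp b
    linarith
  -- the rays
  have E1 : ‖∫ x in Ioi b, rho (FF lam c γ m r₀ T) x‖ ≤ Q / T := by
    have := norm_rays_le' (Φ := FF lam c γ m r₀ T) (A := 0) (B := Q) hb0 le_rfl hQ
      (s := Ioi b)
      (fun x hx => by have := hF _ (up_mem (le_of_lt hx)); simpa using this)
      (fun x hx => by have := hF _ (down_mem (le_of_lt hx)); simpa using this)
      subset_rfl measurableSet_Ioi
    refine this.trans ?_
    rw [zero_add, div_eq_mul_one_div]
    exact mul_le_mul_of_nonneg_left hexpb hQ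
  -- the upper part
  have E2 : ‖∫ y in θ..Real.pi, K (b + y * I) * FF lam c γ m r₀ T (b + y * I)‖ ≤
      Q * (2 / κ ^ 2) / T * |Real.pi - θ| := by
    refine intervalIntegral.norm_integral_le_of_norm_le_const fun y hy => ?_
    rw [uIoc_of_le hθ3] at hy
    rw [norm_mul]
    have h1 : ‖K (b + y * I)‖ ≤ Real.exp (-(κ * Real.exp b)) := by
      refine norm_K_neg ?_
      rw [hκ, neg_neg]
      exact Real.cos_le_cos_of_nonneg_of_le_pi (by linarith) hy.2 hy.1.le
    have h2 := hF (b + y * I) (vert_mem (by linarith [hy.1]) hy.2)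
    have h3 : ((b : ℂ) + y * I).re = b := by simp
    rw [h3] at h2
    calc ‖K (b + y * I)‖ * ‖FF lam c γ m r₀ T (b + y * I)‖
        ≤ Real.exp (-(κ * Real.exp b)) * (Q * b) :=
          mul_le_mul h1 h2 (norm_nonneg _) (Real.exp_pos _).le
      _ = Q * (Real.exp (-(κ * Real.exp b)) * b) := by ring
      _ ≤ Q * (2 / κ ^ 2 * Real.exp (-b)) := mul_le_mul_of_nonneg_left (dexp_le hκ0 hb0) hQ
      _ ≤ Q * (2 / κ ^ 2 * (1 / T)) := by gcongr
      _ = _ := by ring
  -- the lower part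
  have E3 : ‖∫ y in (-Real.pi)..θ, K (b + y * I) * FF lam c γ m r₀ T (b + y * I)‖ ≤
      C1 / T := by
    have h0 : (∫ y in (-Real.pi)..θ, K (b + y * I) * FF lam c γ m r₀ T (b + y * I)) =
        -∫ y in (-Real.pi)..θ, K (b + y * I) * Rr m r₀ L (ww γ T (b + y * I)) := by
      rw [← intervalIntegral.integral_neg]
      refine intervalIntegral.integral_congr fun y hy => ?_
      rw [uIcc_of_le (by linarith)] at hy
      have hzr : ((b : ℂ) + y * I).re = b := by simp
      have hzi : ((b : ℂ) + y * I).im = y := by simp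
      obtain ⟨d1, d2, d3, d4⟩ := dom hη hγ hT (z := b + y * I) (by rw [hzr]; linarith)
        (by rw [hzr]) (by rw [hzi]; exact hy.1) (by rw [hzi]; exact hy.2)
      have hre : (ww γ T (b + y * I)).re = 2 := by
        rw [ww_re, hzr, hb]
        field_simp
      have h5 := hL2 _ hre d3 d4
      have h6 : log (ww γ T (b + y * I)) = ell γ (b + y * I) - Real.log T := by
        have h1 : ww γ T (b + y * I) = ((T⁻¹ : ℝ) : ℂ) * (b + y * I - γ * I) := by
          unfold ww
          push_cast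
          field_simp
        have h2 : (b : ℂ) + y * I - γ * I ≠ 0 := by
          intro h
          have := congrArg Complex.re h
          simp at this
          linarith
        unfold ell
        rw [h1, Complex.log_ofReal_mul (by positivity) h2, Real.log_inv]
        push_cast
        ring
      have h7 : FF lam c γ m r₀ T (b + y * I) = -Rr m r₀ L (ww γ T (b + y * I)) := by
        unfold FF Rr
        rw [h6]
        linear_combination -h5
      simp only [h7]
      ring
    rw [h0, norm_neg]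
    exact hleft T hT
  -- the sum
  have hii := admF.vint
  have hsub1 : IntervalIntegrable (fun y : ℝ => K (b + y * I) * FF lam c γ m r₀ T (b + y * I))
      volume (-Real.pi) θ := hii.mono_set (by
        rw [uIcc_of_le (by linarith), uIcc_of_le (by linarith)]
        exact Icc_subset_Icc le_rfl hθ3)
  have hsub2 : IntervalIntegrable (fun y : ℝ => K (b + y * I) * FF lam c γ m r₀ T (b + y * I))
      volume θ Real.pi := hii.mono_set (by
        rw [uIcc_of_le (by linarith), uIcc_of_le (by linarith)]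
        exact Icc_subset_Icc (by linarith) le_rfl)
  have E4 := intervalIntegral.integral_add_adjacent_intervals hsub1 hsub2
  have hn2 : ‖(2 * Real.pi : ℂ)⁻¹‖ = (2 * Real.pi)⁻¹ := by
    rw [norm_inv, norm_mul, Complex.norm_real, Real.norm_eq_abs, abs_of_pos Real.pi_pos]
    norm_num
  have hpi3 := Real.pi_gt_three
  have hpt : |Real.pi - θ| ≤ 2 * Real.pi := by
    rw [abs_of_nonneg (by linarith)]; linarith
  have E5 : ‖V b (FF lam c γ m r₀ T)‖ ≤ C1 / T + Q * (2 / κ ^ 2) / T := by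
    unfold V
    rw [← E4, norm_mul, hn2, inv_mul_le_iff₀ (by positivity)]
    refine (norm_add_le _ _).trans ?_
    have hx : 0 ≤ C1 / T := by positivity
    have hy : 0 ≤ Q * (2 / κ ^ 2) / T := by positivity
    have h1 : C1 / T ≤ 2 * Real.pi * (C1 / T) := by nlinarith
    have h2 : Q * (2 / κ ^ 2) / T * |Real.pi - θ| ≤ Q * (2 / κ ^ 2) / T * (2 * Real.pi) :=
      mul_le_mul_of_nonneg_left hpt hy
    calc _ ≤ C1 / T + Q * (2 / κ ^ 2) / T * |Real.pi - θ| := add_le_add E3 E2
      _ ≤ 2 * Real.pi * (C1 / T) + Q * (2 / κ ^ 2) / T * (2 * Real.pi) := add_le_add h1 h2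
      _ = _ := by ring
  have E6 : ‖cmean lam c γ T - (m * Real.log T - m * J 1 (ell γ) - r₀)‖ ≤
      (C1 + Q * (2 / κ ^ 2) + Q) / T := by
    rw [← hJ]
    unfold J
    refine (norm_add_le _ _).trans ((add_le_add E5 E1).trans (le_of_eq ?_))
    ring
  have F5 : rmean lam c γ T - (m * Real.log T - m * (J 1 (fun z => log (z - γ * I))).re - r₀.re) =
      (cmean lam c γ T - (m * Real.log T - m * J 1 (ell γ) - r₀)).re := by
    have E2' := (cmean_eq (γ := γ) (b := b) D hT1 le_rfl).2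
    have h1 : ((m : ℂ) * (Real.log T : ℂ)).re = m * Real.log T := by
      have : (m : ℂ) * (Real.log T : ℂ) = ((m * Real.log T : ℝ) : ℂ) := by push_cast; rfl
      rw [this, Complex.ofReal_re]
    have h2 : ((m : ℂ) * J 1 (ell γ)).re = m * (J 1 (ell γ)).re := by
      rw [Complex.mul_re]
      simp
    rw [Complex.sub_re, Complex.sub_re, Complex.sub_re, E2', h1, h2]
    rfl
  rw [F5]
  exact (Complex.abs_re_le_norm _).trans E6

end Pool.Agent.W338.UR
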