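import Pool.Agent.W187.UR.Stm
import Pool.Agent.W187.UR.Main
import Pool.Agent.W189.LC.Refine

/-! Project UR (owner helper187), part UR-REF: the refined asymptotics of the rotated means. -/

set_option autoImplicit false

namespace Pool.Agent.W338.UR

open Complex MeasureTheory Filter Topology Set
open scoped Interval
open Pool.Agent.W189.ML Pool.Agent.W189.LC Pool.Agent.W187.UR

/-- decay of the kernel, second power -/
theorem dexp_le2 {κ x : ℝ} (hκ : 0 < κ) (hx : 0 ≤ x) :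
    Real.exp (-(κ * Real.exp x)) * x ^ 2 ≤ (8 / κ ^ 2) ^ 2 * Real.exp (-x) := by
  have h1 := dexp_le (κ := κ / 2) (by positivity) hx
  have e1 : 2 / (κ / 2) ^ 2 = 8 / κ ^ 2 := by
    field_simp
    norm_num
  rw [e1] at h1
  have h0 : 0 ≤ Real.exp (-(κ / 2 * Real.exp x)) * x := by positivity
  have h2 := mul_self_le_mul_self h0 h1
  have e2 : Real.exp (-(κ / 2 * Real.exp x)) * x * (Real.exp (-(κ / 2 * Real.exp x)) * x) =
      Real.exp (-(κ * Real.exp x)) * x ^ 2 := by
    have : Real.exp (-(κ * Real.exp x)) =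
        Real.exp (-(κ / 2 * Real.exp x)) * Real.exp (-(κ / 2 * Real.exp x)) := by
      rw [← Real.exp_add]
      congr 1
      ring
    rw [this]
    ring
  rw [e2] at h2
  have h3 : Real.exp (-x) ≤ 1 := Real.exp_le_one_iff.2 (by linarith)
  have h4 := Real.exp_pos (-x)
  refine h2.trans ?_
  have h5 : 0 ≤ (8 / κ ^ 2) ^ 2 * Real.exp (-x) := by positivity
  nlinarith [mul_le_mul_of_nonneg_left h3 h5]

/-- bound for the integral over a horizontal side -/
theorem horiz_le2 {Ψ : ℂ → ℂ} {a b y κ A : ℝ} (hκ : 0 < κ) (ha : 0 ≤ a) (hab : a ≤ b)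
    (hA : 0 ≤ A) (hy : Real.cos y ≤ -κ) (hΨ : ∀ x ∈ Icc a b, ‖Ψ (x + y * I)‖ ≤ A * x ^ 2) :
    ‖∫ x in a..b, K (x + y * I) * Ψ (x + y * I)‖ ≤ A * (8 / κ ^ 2) ^ 2 := by
  have h1 : ‖∫ x in a..b, K (x + y * I) * Ψ (x + y * I)‖ ≤
      ∫ x in a..b, A * (8 / κ ^ 2) ^ 2 * Real.exp (-x) := by
    refine intervalIntegral.norm_integral_le_of_norm_le hab ?_ (by
      exact Continuous.intervalIntegrable (by fun_prop) _ _)
    refine ae_of_all _ fun x hx => ?_
    have hx' : x ∈ Icc a b := ⟨hx.1.le, hx.2⟩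
    have hx0 : 0 ≤ x := ha.trans hx'.1
    rw [norm_mul]
    calc ‖K (x + y * I)‖ * ‖Ψ (x + y * I)‖ ≤ Real.exp (-(κ * Real.exp x)) * (A * x ^ 2) :=
          mul_le_mul (norm_K_neg hy) (hΨ x hx') (norm_nonneg _) (Real.exp_pos _).le
      _ = A * (Real.exp (-(κ * Real.exp x)) * x ^ 2) := by ring
      _ ≤ A * ((8 / κ ^ 2) ^ 2 * Real.exp (-x)) := mul_le_mul_of_nonneg_left (dexp_le2 hκ hx0) hA
      _ = _ := by ring
  have h2 : ∫ x in a..b, A * (8 / κ ^ 2) ^ 2 * Real.exp (-x) =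
      A * (8 / κ ^ 2) ^ 2 * (Real.exp (-a) - Real.exp (-b)) := by
    rw [intervalIntegral.integral_const_mul, intervalIntegral.integral_comp_neg
      (f := Real.exp), integral_exp]
  rw [h2] at h1
  refine h1.trans ?_
  have h3 : Real.exp (-a) ≤ 1 := Real.exp_le_one_iff.2 (by linarith)
  have h4 := Real.exp_pos (-b)
  have h5 : 0 ≤ A * (8 / κ ^ 2) ^ 2 := by positivity
  nlinarith

/-- the height of the upper side -/
noncomputable def th (γ : ℝ) : ℝ := (Real.pi / 2 + min γ Real.pi) / 2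

theorem th_facts {γ : ℝ} (hγ : Real.pi / 2 < γ) :
    Real.pi / 2 < th γ ∧ th γ < γ ∧ th γ ≤ Real.pi ∧ 0 < -Real.cos (th γ) := by
  have hpi := Real.pi_pos
  have hmin1 : Real.pi / 2 < min γ Real.pi := lt_min hγ (by linarith)
  have h1 : Real.pi / 2 < th γ := by unfold th; linarith
  have h3 : th γ ≤ Real.pi := by
    have := min_le_right γ Real.pi
    unfold th; linarith
  refine ⟨h1, ?_, h3, ?_⟩
  · have := min_le_left γ Real.pi
    unfold th; linarith
  · have := Real.cos_neg_of_pi_div_two_lt_of_lt h1 (by linarith)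
    linarith

/-- the variable of the series -/
noncomputable def ww (γ T : ℝ) (z : ℂ) : ℂ := (z - γ * I) / T

theorem ww_re (γ T : ℝ) (z : ℂ) : (ww γ T z).re = z.re / T := by unfold ww; simp

theorem ww_im (γ T : ℝ) (z : ℂ) : (ww γ T z).im = (z.im - γ) / T := by unfold ww; simp

/-- the domain -/
theorem dom {γ T η : ℝ} (hη : 0 < η) (hγ : Real.pi / 2 < γ)
    (hT : (Real.pi + γ) / η + (1 + γ) + 1 ≤ T) {z : ℂ} (h1 : 0 < z.re) (h2 : z.re ≤ 2 * T)
    (h3 : -Real.pi ≤ z.im) (h4 : z.im ≤ th γ) :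
    0 < (ww γ T z).re ∧ (ww γ T z).re ≤ 2 ∧ -η ≤ (ww γ T z).im ∧ (ww γ T z).im < 0 := by
  have hpi := Real.pi_pos
  obtain ⟨t1, t2, t3, t4⟩ := th_facts hγ
  have hq : 0 < (Real.pi + γ) / η := by
    have : 0 < γ := by linarith
    positivity
  have hT0 : 0 < T := by linarith
  have hTη : (Real.pi + γ) / T ≤ η := by
    rw [div_le_iff₀ hT0, mul_comm, ← div_le_iff₀ hη]; linarith
  refine ⟨?_, ?_, ?_, ?_⟩
  · rw [ww_re]; positivity
  · rw [ww_re, div_le_iff₀ hT0]; exact h2
  · rw [ww_im]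
    have : -((Real.pi + γ) / T) ≤ (z.im - γ) / T := by
      rw [← neg_div]
      exact div_le_div_of_nonneg_right (by linarith) hT0.le
    linarith
  · rw [ww_im]
    exact div_neg_of_neg_of_pos (by linarith) hT0

/-- the remainder -/
noncomputable def Rr (m : ℤ) (r₀ : ℂ) (L : ℂ → ℂ) (w : ℂ) : ℂ := L w - m * log w - r₀

set_option maxHeartbeats 1000000 in
/-- the part on which the series is the branch `L` -/
theorem left {γ : ℝ} (hγ : Real.pi / 2 < γ) {m : ℤ} {r₀ : ℂ} {η B : ℝ} {L : ℂ → ℂ}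
    (H : Bel m r₀ η B L) : ∃ C : ℝ, 0 ≤ C ∧ ∀ T : ℝ, (Real.pi + γ) / η + (1 + γ) + 1 ≤ T →
    ‖∫ y in (-Real.pi)..(th γ), K (((2 * T : ℝ) : ℂ) + y * I) *
      Rr m r₀ L (ww γ T (((2 * T : ℝ) : ℂ) + y * I))‖ ≤ C / T := by
  obtain ⟨hη, hB, hLd, hLb⟩ := H
  obtain ⟨hθ1, hθ2, hθ3, hκ0⟩ := th_facts hγ
  have hpi := Real.pi_pos
  have hpi4 := Real.pi_lt_four
  set θ : ℝ := th γ with hθ
  set κ : ℝ := -Real.cos θ with hκ
  have hκ1 : κ ≤ 1 := by
    have := Real.neg_one_le_cos θ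
    rw [hκ]; linarith
  set δ : ℝ := γ - θ with hδ
  have hδ0 : 0 < δ := by rw [hδ]; linarith
  set a : ℝ := 1 + γ with ha
  have hγ0 : 0 < γ := by linarith
  have ha1 : 1 ≤ a := by rw [ha]; linarith
  set Dd : ℝ := |Real.log δ| + |Real.log (γ + Real.pi)| with hDd
  have hDd0 : 0 ≤ Dd := by positivity
  set A : ℝ := B * 5 * (6 + 5 * Dd) with hA
  have hA0 : 0 ≤ A := by positivity
  refine ⟨Real.exp (Real.exp a) * (A * a ^ 2) * (2 * Real.pi) + A * (8 / κ ^ 2) ^ 2 +
    A * (8 / κ ^ 2) ^ 2, by positivity, fun T hT => ?_⟩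
  have hq : 0 < (Real.pi + γ) / η := by positivity
  have hT1 : 1 ≤ T := by linarith
  have hTa : a ≤ T := by linarith
  have hT0 : 0 < T := by linarith
  set b : ℝ := 2 * T with hb
  have hab : a ≤ b := by linarith
  set Ψ : ℂ → ℂ := fun z => Rr m r₀ L (ww γ T z) with hΨ
  have hwd : Differentiable ℂ (ww γ T) := by unfold ww; fun_prop
  have hAT : 0 ≤ A / T := by positivity
  have hrect : ∀ z : ℂ, a ≤ z.re → z.re ≤ b → -Real.pi ≤ z.im → z.im ≤ θ →
      DifferentiableAt ℂ Ψ z ∧ ‖Ψ z‖ ≤ A / T * z.re ^ 2 := by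
    intro z h1 h2 h3 h4
    have hz0 : 0 < z.re := by linarith
    have hz1 : 1 ≤ z.re := by linarith
    obtain ⟨h5, h6, h7, h8⟩ := dom hη hγ hT hz0 h2 h3 h4
    have hzn : ‖z - γ * I‖ ≤ 5 * z.re := by
      have e1 := Complex.norm_le_abs_re_add_abs_im (z - γ * I)
      have e2 : (z - γ * I).re = z.re := by simp
      have e3 : (z - γ * I).im = z.im - γ := by simp
      rw [e2, e3, abs_of_pos hz0] at e1
      have e4 : |z.im - γ| ≤ Real.pi + γ := by
        rw [abs_le]; constructor <;> linarith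
      have e5 : Real.pi + γ ≤ 4 * z.re := by
        have : a = 1 + γ := ha
        nlinarith
      linarith
    have hwn : ‖ww γ T z‖ ≤ 5 * z.re / T := by
      unfold ww
      rw [norm_div, Complex.norm_real, Real.norm_eq_abs, abs_of_pos hT0]
      exact div_le_div_of_nonneg_right hzn hT0.le
    constructor
    · have d2 : DifferentiableAt ℂ (fun z => L (ww γ T z)) z :=
        DifferentiableAt.comp (g := L) (f := ww γ T) z (hLd _ h5 h6 h7 h8) (hwd z)
      have d3 : DifferentiableAt ℂ (fun z => log (ww γ T z)) z :=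
        (hwd z).clog (Or.inl h5)
      exact (d2.sub (d3.const_mul _)).sub_const _
    · refine (hLb _ h5 h6 h7 h8).trans ?_
      have h9 : -(ww γ T z).im = (γ - z.im) / T := by rw [ww_im]; ring
      have h10 : |Real.log (-(ww γ T z).im)| ≤ Dd + Real.log T := by
        rw [h9, Real.log_div (by linarith) hT0.ne']
        have h11 : |Real.log (γ - z.im)| ≤ Dd :=
          abs_log_le hδ0 (by linarith) (by linarith)
        have h12 := abs_sub (Real.log (γ - z.im)) (Real.log T)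
        rw [abs_of_nonneg (Real.log_nonneg hT1)] at h12
        linarith
      have hlogT : Real.log T ≤ T := (Real.log_le_sub_one_of_pos hT0).trans (by linarith)
      have h11 : ‖ww γ T z‖ * |Real.log (-(ww γ T z).im)| ≤ 5 * z.re * (1 + Dd) := by
        calc ‖ww γ T z‖ * |Real.log (-(ww γ T z).im)| ≤ (5 * z.re / T) * (Dd + Real.log T) := by
              gcongr
          _ ≤ (5 * z.re / T) * ((1 + Dd) * T) := by
              gcongr
              nlinarith
          _ = _ := by field_simp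
      calc B * ‖ww γ T z‖ * (1 + ‖ww γ T z‖ * |Real.log (-(ww γ T z).im)|) ≤
            B * (5 * z.re / T) * (z.re + 5 * z.re * (1 + Dd)) := by
            gcongr
        _ = A / T * z.re ^ 2 := by rw [hA]; ring
  -- Cauchy's theorem
  have E6 := shift (f := fun z => K z * Ψ z) (a := a) (b := b) (θ := θ) (by
    intro z hz
    rw [mem_reProdIm, uIcc_of_le hab, uIcc_of_le (by linarith)] at hz
    exact ((differentiable_K z).mul (hrect z hz.1.1 hz.1.2 hz.2.1 hz.2.2).1).differentiableWithinAt)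
  have E7 : ‖∫ y in (-Real.pi)..θ, K (a + y * I) * Ψ (a + y * I)‖ ≤
      Real.exp (Real.exp a) * (A / T * a ^ 2) * (2 * Real.pi) := by
    have h1 : ‖∫ y in (-Real.pi)..θ, K (a + y * I) * Ψ (a + y * I)‖ ≤
        (Real.exp (Real.exp a) * (A / T * a ^ 2)) * |θ - -Real.pi| := by
      refine intervalIntegral.norm_integral_le_of_norm_le_const fun y hy => ?_
      rw [uIoc_of_le (by linarith)] at hy
      rw [norm_mul]
      have h2 := (hrect (a + y * I) (by simp) (by simpa using hab) (by simpa using hy.1.le)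
        (by simpa using hy.2)).2
      have h3 : ((a : ℂ) + y * I).re = a := by simp
      rw [h3] at h2
      exact mul_le_mul (norm_K_le a y) h2 (norm_nonneg _) (Real.exp_pos _).le
    have h4 : |θ - -Real.pi| ≤ 2 * Real.pi := by
      rw [abs_of_nonneg (by linarith)]; linarith
    refine h1.trans ?_
    gcongr
  have E8 : ‖∫ x in a..b, K (x + θ * I) * Ψ (x + θ * I)‖ ≤ A / T * (8 / κ ^ 2) ^ 2 := by
    refine horiz_le2 hκ0 (by linarith) hab hAT (by rw [hκ]; linarith) fun x hx => ?_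
    have h2 := (hrect (x + θ * I) (by simpa using hx.1) (by simpa using hx.2)
      (by simp; linarith) (by simp)).2
    simpa using h2
  have E9 : ‖∫ x in a..b, K (x - Real.pi * I) * Ψ (x - Real.pi * I)‖ ≤
      A / T * (8 / κ ^ 2) ^ 2 := by
    have h1 : ∀ x : ℝ, (x : ℂ) - Real.pi * I = x + ((-Real.pi : ℝ) : ℂ) * I := by
      intro x; push_cast; ring
    simp only [h1]
    refine horiz_le2 hκ0 (by linarith) hab hAT ?_ fun x hx => ?_
    · rw [Real.cos_neg, Real.cos_pi]; linarith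
    · have h2 := (hrect (x + ((-Real.pi : ℝ) : ℂ) * I) (by simpa using hx.1) (by simpa using hx.2)
        (by simp) (by simp; linarith)).2
      simpa using h2
  have h1 : ‖∫ y in (-Real.pi)..θ, K (b + y * I) * Ψ (b + y * I)‖ =
      ‖I * ∫ y in (-Real.pi)..θ, K (b + y * I) * Ψ (b + y * I)‖ := by
    rw [norm_mul, Complex.norm_I, one_mul]
  rw [h1, E6]
  have h2 : (Real.exp (Real.exp a) * (A * a ^ 2) * (2 * Real.pi) + A * (8 / κ ^ 2) ^ 2 +
      A * (8 / κ ^ 2) ^ 2) / T = Real.exp (Real.exp a) * (A / T * a ^ 2) * (2 * Real.pi) +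
      A / T * (8 / κ ^ 2) ^ 2 + A / T * (8 / κ ^ 2) ^ 2 := by ring
  rw [h2]
  refine (norm_sub_le _ _).trans (add_le_add ((norm_add_le _ _).trans (add_le_add ?_ E8)) E9)
  rw [norm_mul, Complex.norm_I, one_mul]
  exact E7

end Pool.Agent.W338.UR
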